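import Pool.Agent.U828.KD.SH

/-!
# Segre's conjecture for all numbers of points and all degrees at once, multiplicities from an arbitrary function of
given order

Let `f` be an ARBITRARY function on the natural numbers, `f t ≥ 1` for large `t`, of some order `c > 0`: for one
`d > c` the differences of order `d` of `f` have a constant sign and are `t ^ (c - d + o(1))` in absolute value. There is no smoothness and no formula; examples are `t ^ c` with `c` not an integer, `t ^ j log t`, the functions of
a Hardy field with the same growth, all these plus arbitrary real polynomials of degree below the order of the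
differences, and irregular functions.

**Theorem.** For a positive proportion of the integers `t` in every interval `(N, 2 N]`, `N` large, the multiplicity
`m = ⌊f t⌋` has the following property: for EVERY number `n ≥ 10` of general points and EVERY degree `e` the system of
the curves of degree `e` with `n` points of multiplicity `m` is not special.

The starting file `PolynomialMultiplicities` has the polynomials with integral coefficients. There are 21 critical
numbers of points with irrational square roots; the new ingredient is a derivative test for arbitrary functions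
(`Pool.Agent.U828.KD.order_exp`), which gives the joint equidistribution of the multiples of `f t` by all their square
roots and by one; these real multiples of `f` are treated as functions of the same order.
-/

set_option autoImplicit false

namespace Pool.Agent.Results.MP_cfebfb_ag.FunctionsOfGivenOrder

open MvPolynomial Filter

/-- Forms of degree `d` vanishing to order at least `w i` at the points `(P i 0 : P i 1 : 1)`. -/
noncomputable def forms {n : ℕ} (P : Fin n → Fin 2 → ℂ) (d : ℕ) (w : Fin n → ℕ) :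
    Submodule ℂ (MvPolynomial (Fin 3) ℂ) :=
  homogeneousSubmodule (Fin 3) ℂ d ⊓
    Submodule.restrictScalars ℂ
      (⨅ i : Fin n, (Ideal.span {X 0 - C (P i 0) * X 2, X 1 - C (P i 1) * X 2} :
        Ideal (MvPolynomial (Fin 3) ℂ)) ^ (w i))

/-- The system of the curves of degree `d` with multiplicities `w` at the points `P` is not special:
its projective dimension is the expected one, `max (virtdim, -1)`. -/
def NotSpecial {n : ℕ} (P : Fin n → Fin 2 → ℂ) (d : ℕ) (w : Fin n → ℕ) : Prop :=
  (Module.finrank ℂ ↥(forms P d w) : ℤ) - 1 =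
    max (((d + 2).choose 2 : ℤ) - 1 - ∑ i, ((w i + 1).choose 2 : ℤ)) (-1)

/-- For general points (one nonempty open set for all degrees) the systems of curves with the
multiplicities `w` are not special, in every degree. -/
def NeverSpecial {n : ℕ} (w : Fin n → ℕ) : Prop :=
  ∃ F : MvPolynomial (Fin n × Fin 2) ℂ, F ≠ 0 ∧ ∀ P : Fin n → Fin 2 → ℂ,
    MvPolynomial.eval (fun ij : Fin n × Fin 2 => P ij.1 ij.2) F ≠ 0 → ∀ d : ℕ, NotSpecial P d w

/-- The multiplicity `m ≥ 1` is good for every number `n ≥ 10` of points and every degree. -/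
def Holds (m : ℕ) : Prop := 1 ≤ m ∧ ∀ n : ℕ, 10 ≤ n → NeverSpecial (fun _ : Fin n => m)

/-- The differences of order `d` of `f` have a constant sign and are `t ^ (c - d + o(1))` in absolute value. -/
def Order (d : ℕ) (c : ℝ) (f : ℕ → ℝ) : Prop :=
  ∀ ε : ℝ, 0 < ε → ∃ T : ℕ,
    (∀ t : ℕ, T ≤ t → (t : ℝ) ^ (c - d - ε) ≤ (fwdDiff 1)^[d] f t ∧
      (fwdDiff 1)^[d] f t ≤ (t : ℝ) ^ (c - d + ε)) ∨
    (∀ t : ℕ, T ≤ t → (t : ℝ) ^ (c - d - ε) ≤ -(fwdDiff 1)^[d] f t ∧
      -(fwdDiff 1)^[d] f t ≤ (t : ℝ) ^ (c - d + ε))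

theorem never_of {n : ℕ} {w : Fin n → ℕ} (h : Pool.Agent.N141.SG.ExN w) : NeverSpecial w := by
  obtain ⟨F, hF, hF'⟩ := h
  refine ⟨F.map (algebraMap ℚ ℂ), Pool.Agent.H932R3.map_ne_zero_of hF, fun P hP d => ?_⟩
  rw [MvPolynomial.eval_map] at hP
  have h1 := hF' P hP d
  unfold Pool.Agent.H932R3.ExpDim at h1
  unfold NotSpecial forms
  rw [h1]
  have e : ∑ i, ((w i + 1).choose 2 : ℤ) = ((∑ i, (w i + 1).choose 2 : ℕ) : ℤ) := by
    push_cast
    rfl
  rw [e]
  omega

theorem holds_of {m : ℕ} (hm : 1 ≤ m) (h : Pool.Agent.N141.SG.Tgt (m : ℕ)) : Holds m :=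
  ⟨hm, fun _ hn => never_of (w := fun _ => m) (Pool.Agent.N141.SG.every h hm hn)⟩

/-- **Main result.** -/
theorem result : ∀ (d : ℕ) (c : ℝ), 2 ≤ d → 0 < c → c < d → ∀ f : ℕ → ℝ, Order d c f →
    (∀ᶠ t : ℕ in atTop, 1 ≤ f t) →
    ∀ᶠ N : ℕ in atTop, 1 / 10000 ^ 22 * (N : ℝ) ≤
      ({t : ℕ | t ∈ Finset.Ioc N (2 * N) ∧ Holds ⌊f t⌋₊}.ncard : ℝ) := by
  intro d c hd hc0 hcd f hf hpos
  filter_upwards [Pool.Agent.U828.KD.tgt_order d hd c hc0 hcd f hf hpos] with N hN
  refine hN.trans ?_
  have h1 : {t : ℕ | t ∈ Finset.Ioc N (2 * N) ∧ 1 ≤ ⌊f t⌋₊ ∧ Pool.Agent.N141.SG.Tgt (⌊f t⌋₊ : ℕ)} ⊆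
      {t : ℕ | t ∈ Finset.Ioc N (2 * N) ∧ Holds ⌊f t⌋₊} :=
    fun t ht => ⟨ht.1, holds_of ht.2.1 ht.2.2⟩
  exact_mod_cast Set.ncard_le_ncard h1 ((Finset.finite_toSet (Finset.Ioc N (2 * N))).subset fun t ht => ht.1)

end Pool.Agent.Results.MP_cfebfb_ag.FunctionsOfGivenOrder
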