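import Mathlib
import Pool.Agent.U605.ST.Packed

set_option autoImplicit false

/-!
# Segre's conjecture for equal multiplicities and a tail which fits into a rectangle

Let `n ≥ 36` of `h` general points of the complex projective plane have multiplicity `M` with
`n ≤ 4 (√n - 5) M` (so `M` may be of the order `√n / 4`), let any number of points be simple, and let
`tail` be the set of the other points of multiplicities `m i ≥ 2`. Put
`room = (3 √n - 5 - n / (4 M)) / 4`. Suppose that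

* `m i ≤ T` for all `i` of the tail and `2 ∑ m i ^ 2 + T ^ 2 ≤ T H`, the sum over the tail;
* `T ≤ room` and `H ≤ 2 M`, or `room * H ≤ (2 room - T) M` (so `T` may be up to about `3 √n / 2`);
* `∑ m i (m i + 1) ≤ (√n - 5) M`, the sum over the tail.

Then for general points NO system `ℒ_d(m)` is special, in any degree `d`: Segre's conjecture holds for
all of them. The points are those of one nonempty open set for all `d`.
-/

namespace Pool.Agent.Results.MP_cfebfb_ag.PackedTailNeverSpecial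

open MvPolynomial

/-- The forms of degree `d` vanishing to order at least `m i` at the points `(P i 0 : P i 1 : 1)`. -/
noncomputable def forms {h : ℕ} (P : Fin h → Fin 2 → ℂ) (d : ℕ) (m : Fin h → ℕ) :
    Submodule ℂ (MvPolynomial (Fin 3) ℂ) :=
  homogeneousSubmodule (Fin 3) ℂ d ⊓
    Submodule.restrictScalars ℂ
      (⨅ i : Fin h, (Ideal.span {X 0 - C (P i 0) * X 2, X 1 - C (P i 1) * X 2} :
        Ideal (MvPolynomial (Fin 3) ℂ)) ^ (m i))

/-- The dimension of the linear system. -/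
noncomputable def dimL {h : ℕ} (P : Fin h → Fin 2 → ℂ) (d : ℕ) (m : Fin h → ℕ) : ℤ :=
  (Module.finrank ℂ ↥(forms P d m) : ℤ) - 1

/-- The expected dimension. -/
def expdim {h : ℕ} (d : ℕ) (m : Fin h → ℕ) : ℤ :=
  max (((d + 2).choose 2 : ℤ) - 1 - ∑ i, ((m i + 1).choose 2 : ℤ)) (-1)

/-- The system is special. -/
def Special {h : ℕ} (P : Fin h → Fin 2 → ℂ) (d : ℕ) (m : Fin h → ℕ) : Prop :=
  expdim d m < dimL P d m

/-- The tail: the points whose multiplicity is at least `2` and different from `M`. -/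
def tail {h : ℕ} (M : ℕ) (m : Fin h → ℕ) : Finset (Fin h) :=
  Finset.univ.filter fun i => 2 ≤ m i ∧ m i ≠ M

/-- The room beside `n` points of multiplicity `M`. -/
noncomputable def room (n M : ℕ) : ℝ := (3 * √(n : ℝ) - 5 - (n : ℝ) / (4 * M)) / 4

theorem result (h : ℕ) (m : Fin h → ℕ) (n M T H : ℕ) (hn : 36 ≤ n)
    (hcard : (Finset.univ.filter fun i => m i = M).card = n)
    (hM : (n : ℝ) ≤ 4 * (√(n : ℝ) - 5) * M)
    (hT : ∀ i ∈ tail M m, m i ≤ T) (hTH : 2 * ∑ i ∈ tail M m, m i ^ 2 + T ^ 2 ≤ T * H)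
    (hroom : (H ≤ 2 * M ∧ (T : ℝ) ≤ room n M) ∨ room n M * H ≤ (2 * room n M - T) * M)
    (hsum : ∑ i ∈ tail M m, (m i : ℝ) * (m i + 1) ≤ (√(n : ℝ) - 5) * M) :
    ∃ F : MvPolynomial (Fin h × Fin 2) ℂ, F ≠ 0 ∧
      ∀ P : Fin h → Fin 2 → ℂ, eval (fun ij : Fin h × Fin 2 => P ij.1 ij.2) F ≠ 0 →
        ∀ d : ℕ, ¬ Special P d m := by
  obtain ⟨F, hF, hF'⟩ := Pool.Agent.U605.ST.expDim_packed m hn hM hcard hT hTH hroom hsum
  refine ⟨F.map (algebraMap ℚ ℂ), Pool.Agent.H932R3.map_ne_zero_of hF, fun P hP d => ?_⟩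
  rw [eval_map] at hP
  have h1 : Module.finrank ℂ ↥(forms P d m) =
      Nat.choose (d + 2) 2 - ∑ i, Nat.choose (m i + 1) 2 := hF' P hP d
  have h2 : ∑ i, ((m i + 1).choose 2 : ℤ) = ((∑ i, Nat.choose (m i + 1) 2 : ℕ) : ℤ) := by
    push_cast
    rfl
  unfold Special dimL expdim
  rw [h1, h2]
  omega

end Pool.Agent.Results.MP_cfebfb_ag.PackedTailNeverSpecial
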