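import Mathlib
import Pool.Agent.U11.QuadOne

set_option autoImplicit false

/-!
# Segre's conjecture for the subdivisions of eleven nearly equal points: every degree up to one curve

`Family` is the least family of finite multisets of multiplicities which contains `x` times `m` and `y`
times `m + 1` for all `x + y = 11`, `m ≥ 1`, and is closed under the two ways of replacing points of
multiplicity `b` by four points of multiplicities about `b / 2`. In EVERY degree `d` EVERY member of the
family (at general points of the complex projective plane) is not special, or `3 ∣ d`, the virtual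
dimension is negative and the system consists of exactly one curve. For every `ε > 0` and all large
degrees `d` NO member of the family is special in the degree `d`, except possibly if `3 ∣ d` and
`11 + 2 W - √11 (2 d + 3)` lies between `0` and `ε` for some integer `W`. The gaps between the consecutive
degrees in which some member of the family is special tend to infinity. The family contains all nearly
equal multiplicities at `11 * 4 ^ k` points and, for `a ≤ 11`, `11 - a` times `2 m` together with `4 a`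
times `m`.
-/

namespace Pool.Agent.Results.MP_cfebfb_ag.SubdivisionOneCurve

open MvPolynomial

/-- Forms of degree `d` vanishing to order at least `w i` at the points `(P i 0 : P i 1 : 1)`. -/
noncomputable def forms {n : ℕ} (P : Fin n → Fin 2 → ℂ) (d : ℕ) (w : Fin n → ℕ) :
    Submodule ℂ (MvPolynomial (Fin 3) ℂ) :=
  homogeneousSubmodule (Fin 3) ℂ d ⊓
    Submodule.restrictScalars ℂ
      (⨅ i : Fin n, (Ideal.span {X 0 - C (P i 0) * X 2, X 1 - C (P i 1) * X 2} :
        Ideal (MvPolynomial (Fin 3) ℂ)) ^ (w i))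

/-- The system of the forms of degree `d` with multiplicities `w` at the points `P` is not special:
its vector space dimension is `max (0, (d + 2) (d + 1) / 2 - ∑ (w i + 1) (w i) / 2)`. -/
def NonSpecial {n : ℕ} (P : Fin n → Fin 2 → ℂ) (d : ℕ) (w : Fin n → ℕ) : Prop :=
  (Module.finrank ℂ ↥(forms P d w) : ℤ) =
    max 0 (((d + 2).choose 2 : ℤ) - ∑ i, ((w i + 1).choose 2 : ℤ))

/-- The system of degree `d` with the multiplicities `w` at general points is not special: a
nonempty Zariski open set of points, the complement of the zeros of `F`. -/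
def GeneralNonSpecial {n : ℕ} (d : ℕ) (w : Fin n → ℕ) : Prop :=
  ∃ F : MvPolynomial (Fin n × Fin 2) ℂ, F ≠ 0 ∧ ∀ P : Fin n → Fin 2 → ℂ,
    eval (fun ij : Fin n × Fin 2 => P ij.1 ij.2) F ≠ 0 → NonSpecial P d w

/-- The multiset of the multiplicities. -/
def mults {n : ℕ} (w : Fin n → ℕ) : Multiset ℕ := Multiset.map w Finset.univ.val

/-- The four multiplicities `⌊b/2⌋`, `⌊b/2⌋`, `⌈b/2⌉`, `⌈b/2⌉`. -/
def halves (b : ℕ) : Multiset ℕ := {b / 2, b / 2, (b + 1) / 2, (b + 1) / 2}

/-- Four multiplicities, as equal as possible with the number of conditions of a point of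
multiplicity `b ≥ 1`. -/
def quarters (b : ℕ) : Multiset ℕ := {(2 * b - 1) / 4, 2 * b / 4, (2 * b + 1) / 4, (2 * b + 2) / 4}

/-- The least family of multisets which contains the eleven nearly equal multiplicities (`near`) and is
closed under replacing one point of multiplicity `b` by `quarters b` (`one`) and, if `N` points of
multiplicity `b` as well as `N` points of multiplicity `b + 1` may be completed by `e`, under replacing
them by `N` times `halves b` (`four`). -/
inductive Family : Multiset ℕ → Prop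
  | near {m x y : ℕ} (hm : 1 ≤ m) (h : x + y = 11) : Family (x • {m} + y • {m + 1})
  | one {b : ℕ} {e : Multiset ℕ} (hb : 1 ≤ b) (h : Family (b ::ₘ e)) : Family (quarters b + e)
  | four {N b : ℕ} {e : Multiset ℕ} (hN : 1 ≤ N) (hb : 1 ≤ b) (h : Family (N • {b} + e))
      (h' : Family (N • {b + 1} + e)) : Family (N • halves b + e)

/-- The degree `d` is clean: no member of the family is special in the degree `d`. -/
def Clean (d : ℕ) : Prop :=
  ∀ (n : ℕ) (w : Fin n → ℕ), Family (mults w) → GeneralNonSpecial d w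

/-- The possible exceptions for `ε`. -/
def Window (ε : ℝ) (d : ℕ) : Prop :=
  3 ∣ d ∧ ∃ W : ℕ, √11 * (2 * d + 3) < 11 + 2 * (W : ℝ) ∧ 11 + 2 * (W : ℝ) < √11 * (2 * d + 3) + ε

open Pool.Agent.TH176.Nag Pool.Agent.TH603.Sur in
theorem general_of {n : ℕ} {w : Fin n → ℕ} {d : ℕ}
    (h : Emp w (TZ d) ∨ Sur w (TZ d)) : GeneralNonSpecial d w := by
  obtain ⟨F, hF, hF'⟩ := Pool.Agent.TH864.SX.expDim_of_or' (w := w) (G := fun d' => d' = d)
    (fun d' hd' => by rw [hd']; exact h)
  refine ⟨F.map (algebraMap ℚ ℂ), Pool.Agent.H932R3.map_ne_zero_of hF, fun P hP => ?_⟩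
  rw [MvPolynomial.eval_map] at hP
  have h1 := hF' P hP d rfl
  unfold Pool.Agent.H932R3.ExpDim at h1
  unfold NonSpecial forms
  rw [h1]
  have e : ∑ i, ((w i + 1).choose 2 : ℤ) = ((∑ i, (w i + 1).choose 2 : ℕ) : ℤ) := by
    push_cast
    rfl
  rw [e]
  omega

section
open Pool.Agent.TH2.NU Pool.Agent.TH641.UM Pool.Agent.TH759.EV

theorem ms_map {n : ℕ} (w : Fin n → ℕ) : mults w = ms w := by
  unfold mults ms
  rw [Finset.sum_eq_multiset_sum]
  rw [← Multiset.sum_map_singleton (Multiset.map w Finset.univ.val), Multiset.map_map]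
  rfl

theorem halves_eq (b : ℕ) : halves b = q4 b := by
  unfold halves q4 ms
  rw [Fintype.sum_prod_type]
  simp only [Fin.sum_univ_two, qv, Fin.val_zero, Fin.val_one, add_zero, Multiset.insert_eq_cons,
    ← Multiset.singleton_add, add_assoc]

theorem quarters_eq {b : ℕ} (hb : 1 ≤ b) : quarters b = r4 b := by
  unfold quarters r4 ms
  rw [Fintype.sum_prod_type]
  simp only [Fin.sum_univ_two, rv, Fin.val_zero, Fin.val_one, mul_zero, mul_one, add_zero, zero_add,
    Multiset.insert_eq_cons, ← Multiset.singleton_add, add_assoc]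
  have h1 : 2 * b - 1 + 1 = 2 * b := by omega
  have h2 : 2 * b - 1 + 2 = 2 * b + 1 := by omega
  have h3 : 2 * b - 1 + (2 + 1) = 2 * b + 2 := by omega
  rw [h1, h2, h3]

theorem fam_R {a b : ℕ} {M : Multiset ℕ} (hb : 1 ≤ b) (h : Family (a • {b} + M)) :
    Family (a • r4 b + M) := by
  induction a generalizing M with
  | zero => simpa using h
  | succ a ih =>
    have e1 : (a + 1) • ({b} : Multiset ℕ) + M = b ::ₘ (a • {b} + M) := by
      rw [add_smul, one_smul, ← Multiset.singleton_add]
      abel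
    rw [e1] at h
    have h1 := Family.one hb h
    have e2 : quarters b + (a • {b} + M) = a • {b} + (quarters b + M) := by abel
    rw [e2] at h1
    have h2 := ih h1
    rw [quarters_eq hb] at h2
    have e3 : (a + 1) • r4 b + M = a • r4 b + (r4 b + M) := by
      rw [add_smul, one_smul]
      abel
    rw [e3]
    exact h2

theorem fam_Q {a b : ℕ} {M : Multiset ℕ} (hb : 1 ≤ b) (h : Family (a • {b} + M))
    (h' : Family (a • {b + 1} + M)) : Family (a • q4 b + M) := by
  rcases Nat.eq_zero_or_pos a with rfl | ha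
  · simpa using h
  · rw [← halves_eq]
    exact Family.four ha hb h h'

theorem fam_pow (k : ℕ) : ∀ m : ℕ, 1 ≤ m → ∀ x y : ℕ, x + y = 11 * 4 ^ k →
    Family (x • {m} + y • {m + 1}) := by
  induction k with
  | zero =>
    intro m hm x y h
    exact Family.near hm (by omega)
  | succ k ih =>
    intro m hm x y h
    refine Pool.Agent.U11.quad_gen Family fam_R fam_Q ih m hm x y ?_
    rw [h]
    ring

theorem sgn_fam {d : ℕ} (hd : Pool.Agent.U11.NUd 11 d) {v : Multiset ℕ} (h : Family v) : Sgn v d := by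
  induction h with
  | near hm h => exact hd _ hm _ _ h
  | @one b e hb h ih =>
    have h1 := Pool.Agent.U11.SgR (a := 1) (M := e) hb (by
      rw [one_smul, Multiset.singleton_add]
      exact ih)
    rw [one_smul, ← quarters_eq hb] at h1
    exact h1
  | four hN hb h h' ih ih' =>
    rw [halves_eq]
    exact Pool.Agent.U11.SgQ hb ih ih'

open Pool.Agent.TH176.Nag Pool.Agent.TH603.Sur in
theorem base1 {d m x y : ℕ} (h : x + y = 11) : Sgn (x • {m} + y • {m + 1} + {1}) d := by
  have e : x • {m} + y • {m + 1} = ms (Sum.elim (fun _ : Fin x => m) (fun _ : Fin y => m + 1)) := by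
    rw [ms_sum, ms_fin, ms_fin]
  have hc : Fintype.card (Fin x ⊕ Fin y) = 11 := by
    rw [Fintype.card_sum, Fintype.card_fin, Fintype.card_fin]; exact h
  let f := Fintype.equivFinOfCardEq hc
  have h1 := Pool.Agent.U11.near11_one
    (w := fun i => Sum.elim (fun _ : Fin x => m) (fun _ : Fin y => m + 1) (f.symm i)) (m := m) (by
    intro i
    rcases f.symm i with j | j
    · exact Or.inl rfl
    · exact Or.inr rfl) d
  have h2 := Pool.Agent.TH864.SX.ED_of_or (Pool.Agent.U11.one_sgn h1)
  have h3 : ms (fun i => Sum.elim (fun _ : Fin x => m) (fun _ : Fin y => m + 1) (f.symm i)) =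
      x • {m} + y • {m + 1} := by
    rw [e]
    unfold ms
    exact Equiv.sum_comp f.symm
      (fun j => ({Sum.elim (fun _ : Fin x => m) (fun _ : Fin y => m + 1) j} : Multiset ℕ))
  have h4 : ms (Sum.elim (fun i => Sum.elim (fun _ : Fin x => m) (fun _ : Fin y => m + 1) (f.symm i))
      (fun _ : Fin 1 => 1)) = x • {m} + y • {m + 1} + {1} := by
    rw [ms_sum, h3, ms_fin, one_smul]
  rw [cond_condM, h4] at h2
  exact ⟨fun h => (EmpM_iff h4 _).2 (h2.1 h), fun h => (SurM_iff h4 _).2 (h2.2 h)⟩

/-- every member of the family with one more simple point, every degree -/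
theorem sgn_fam1 {d : ℕ} {v : Multiset ℕ} (h : Family v) : Sgn (v + {1}) d := by
  induction h with
  | near hm h => exact base1 h
  | @one b e hb h ih =>
    have h1 := Pool.Agent.U11.SgR (a := 1) (M := e + {1}) hb (by
      rw [one_smul, ← add_assoc, Multiset.singleton_add]
      exact ih)
    rw [one_smul, ← quarters_eq hb, ← add_assoc] at h1
    exact h1
  | four hN hb h h' ih ih' =>
    rw [halves_eq, add_assoc]
    rw [add_assoc] at ih ih'
    exact Pool.Agent.U11.SgQ hb ih ih'

open Pool.Agent.TH176.Nag Pool.Agent.TH603.Sur in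
theorem one_fam {n : ℕ} {w : Fin n → ℕ} (h : Family (mults w)) (d : ℕ) :
    Pool.Agent.U11.One w (TZ d) := by
  apply Pool.Agent.U11.sgn_one
  have h2 := Pool.Agent.U11.Sgn_or (sgn_fam1 (d := d) h)
  have h4 : ms (Sum.elim w (fun _ : Fin 1 => 1)) = mults w + {1} := by
    rw [ms_sum, ms_fin, one_smul, ms_map]
  rw [EmpM_iff h4, SurM_iff h4] at h2
  exact h2

open Pool.Agent.TH176.Nag Pool.Agent.TH603.Sur in
theorem three_fam {n : ℕ} {w : Fin n → ℕ} (h : Family (mults w)) {d : ℕ} (h3 : ¬ 3 ∣ d) :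
    Emp w (TZ d) ∨ Sur w (TZ d) := by
  have hNU : Pool.Agent.U11.NUd 11 d := Pool.Agent.U11.NUd_of fun v m hv => by
    have hpar : Pool.Agent.TH759.EV.Par 2 1 (Pool.Agent.TH759.EV.LL 11)
        (√((11 : ℕ) : ℝ) * Pool.Agent.TH759.EV.LL 11) 11 :=
      Pool.Agent.TH759.EV.par_of (by norm_num) (by norm_num) (by norm_num) (by norm_num)
        (by norm_num)
    rcases le_or_gt ((11 : ℝ) + 2 * ((∑ i, v i : ℕ) : ℝ)) (√11 * (2 * d + 3)) with hX | hX
    · right
      have hmax : ∀ i, max (v i) m = v i := fun i => by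
        rcases hv i with h | h <;> omega
      exact Pool.Agent.TH759.EV.Sur_pl hpar (Fintype.card_fin 11) (b := m)
        (fun i => by rcases hv i with h | h <;> omega) (by
        simp only [hmax]
        push_cast at hX ⊢
        exact hX)
    · left
      exact Pool.Agent.TH759.EV.Emp_pl hpar (Fintype.card_fin 11) h3 (by
        push_cast at hX ⊢
        linarith)
  have h2 := Pool.Agent.U11.Sgn_or (sgn_fam hNU h)
  rw [ms_map, EmpM_iff rfl, SurM_iff rfl] at h2
  exact h2

open Pool.Agent.TH176.Nag Pool.Agent.TH603.Sur in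
theorem main {ε : ℝ} (hε : 0 < ε) : ∃ d₀ : ℕ, ∀ d : ℕ, d₀ ≤ d → ¬ Window ε d → Clean d := by
  obtain ⟨d₀, hd₀⟩ := Pool.Agent.U11.NUd_eleven hε
  refine ⟨d₀, fun d hd h n w hw => general_of ?_⟩
  have h1 := hd₀ d hd h 0
  have h2 := Pool.Agent.U11.Sgn_or (sgn_fam (by simpa using h1) hw)
  rw [ms_map, EmpM_iff rfl, SurM_iff rfl] at h2
  exact h2

end

open Pool.Agent.TH176.Nag Pool.Agent.TH603.Sur in
theorem part1 {n : ℕ} {w : Fin n → ℕ} (h : Family (mults w)) :
    ∃ F : MvPolynomial (Fin n × Fin 2) ℂ, F ≠ 0 ∧ ∀ P : Fin n → Fin 2 → ℂ,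
      eval (fun ij : Fin n × Fin 2 => P ij.1 ij.2) F ≠ 0 → ∀ d : ℕ,
        NonSpecial P d w ∨ (3 ∣ d ∧ (d + 2).choose 2 ≤ ∑ i, (w i + 1).choose 2 ∧
          Module.finrank ℂ ↥(forms P d w) = 1) := by
  obtain ⟨F1, hF1, h1⟩ := Pool.Agent.U11.dims (w := w) (G := fun _ => True)
    (fun d _ => one_fam h d)
  obtain ⟨F2, hF2, h2⟩ := Pool.Agent.TH864.SX.expDim_of_or' (w := w) (G := fun d => ¬ 3 ∣ d)
    (fun d hd => three_fam h hd)
  refine ⟨(F1 * F2).map (algebraMap ℚ ℂ),
    Pool.Agent.H932R3.map_ne_zero_of (mul_ne_zero hF1 hF2), fun P hP d => ?_⟩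
  rw [MvPolynomial.eval_map] at hP
  have hP' : aeval (fun ij : Fin n × Fin 2 => P ij.1 ij.2) (F1 * F2) ≠ 0 := hP
  rw [map_mul] at hP'
  have e : ∑ i, ((w i + 1).choose 2 : ℤ) = ((∑ i, (w i + 1).choose 2 : ℕ) : ℤ) := by
    push_cast
    rfl
  have hgood : Module.finrank ℂ ↥(forms P d w) = (d + 2).choose 2 - ∑ i, (w i + 1).choose 2 →
      NonSpecial P d w := by
    intro h5
    unfold NonSpecial
    rw [h5, e]
    omega
  rcases h1 P (left_ne_zero_of_mul hP') d trivial with h3 | ⟨h3, h4⟩
  · exact Or.inl (hgood h3)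
  by_cases h5 : 3 ∣ d
  · exact Or.inr ⟨h5, h3, h4⟩
  · exact Or.inl (hgood (h2 P (right_ne_zero_of_mul hP') d h5))

/-- **Segre's conjecture for the subdivisions of eleven nearly equal points**: every degree up to one
curve, and all degrees but a sequence with gaps tending to infinity, the same one for the whole family. -/
theorem result :
    (∀ (n : ℕ) (w : Fin n → ℕ), Family (mults w) →
      ∃ F : MvPolynomial (Fin n × Fin 2) ℂ, F ≠ 0 ∧ ∀ P : Fin n → Fin 2 → ℂ,
        eval (fun ij : Fin n × Fin 2 => P ij.1 ij.2) F ≠ 0 → ∀ d : ℕ,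
          NonSpecial P d w ∨ (3 ∣ d ∧ (d + 2).choose 2 ≤ ∑ i, (w i + 1).choose 2 ∧
            Module.finrank ℂ ↥(forms P d w) = 1)) ∧
    (∀ ε : ℝ, 0 < ε → ∃ d₀ : ℕ, ∀ d : ℕ, d₀ ≤ d → ¬ Window ε d → Clean d) ∧
    (∀ Q : ℕ, ∃ d₀ : ℕ, ∀ d d' : ℕ, d₀ ≤ d → d < d' → ¬ Clean d → ¬ Clean d' → d + Q ≤ d') ∧
    (∀ k m x y : ℕ, 1 ≤ m → x + y = 11 * 4 ^ k → Family (x • {m} + y • {m + 1})) ∧
    (∀ m a : ℕ, 1 ≤ m → a ≤ 11 → Family ((4 * a) • {m} + (11 - a) • {2 * m})) := by
  refine ⟨fun n w h => part1 h, fun ε hε => main hε, fun Q => ?_,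
    fun k m x y hm h => fam_pow k m hm x y h, fun m a hm ha => ?_⟩
  · obtain ⟨ε, hε, hs⟩ := Pool.Agent.U11.sparse11 Q
    obtain ⟨d₀, hd₀⟩ := main hε
    refine ⟨d₀, fun d d' hd hdd' hb hb' => ?_⟩
    by_contra hcon
    push Not at hcon
    have h1 : Window ε d := by
      by_contra h
      exact hb (hd₀ d hd h)
    have h2 : Window ε d' := by
      by_contra h
      exact hb' (hd₀ d' (hd.trans hdd'.le) h)
    obtain ⟨-, W, h3⟩ := h1
    obtain ⟨-, W', h4⟩ := h2
    exact hs d d' W W' hdd' hcon h3 h4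
  · have h1 : Family (a • {2 * m} + (11 - a) • {2 * m}) := by
      have h := Family.near (m := 2 * m) (x := 11) (y := 0) (by omega) rfl
      rw [zero_smul, add_zero] at h
      rw [← add_smul, Nat.add_sub_cancel' ha]
      exact h
    have h2 : Family (a • {2 * m + 1} + (11 - a) • {2 * m}) := by
      have h := Family.near (m := 2 * m) (x := 11 - a) (y := a) (by omega) (by omega)
      rw [add_comm] at h
      exact h
    have h3 := fam_Q (by omega) h1 h2
    rw [Pool.Agent.TH759.EV.q4_even, smul_smul] at h3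
    rw [mul_comm 4 a]
    exact h3

end Pool.Agent.Results.MP_cfebfb_ag.SubdivisionOneCurve
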